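import Mathlib
import Pool.Agent.Helper39.Uct.Goals3

/-! Finitely generated nilpotent groups. -/

namespace Pool.Agent.Helper51.Uct2

open Subgroup
open scoped commutatorElement

theorem comm_noeth {A : Type*} [CommGroup A] [Group.FG A] (H : Subgroup A) : H.FG := by
  haveI : Module.Finite ℤ (Additive A) := by
    rw [Module.Finite.iff_addGroup_fg]
    exact GroupFG.iff_add_fg.1 inferInstance
  rw [Subgroup.fg_iff_add_fg]
  have h := IsNoetherian.noetherian (R := ℤ) (M := Additive A)
    (AddSubgroup.toIntSubmodule H.toAddSubgroup)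
  rw [Submodule.fg_iff_addSubgroup_fg] at h
  simpa using h

/-- Subgroups of a commutative f.g. subgroup. -/
theorem comm_sub {G : Type*} [Group G] (A : Subgroup G) (hA : A.FG)
    (hc : ∀ x ∈ A, ∀ y ∈ A, x * y = y * x) (H : Subgroup G) (hH : H ≤ A) : H.FG := by
  letI : CommGroup A := { (inferInstance : Group A) with
    mul_comm := fun x y => Subtype.ext (hc x x.2 y y.2) }
  haveI : Group.FG A := (Group.fg_iff_subgroup_fg A).2 hA
  have h : (H.subgroupOf A).FG := comm_noeth (A := A) (H.subgroupOf A)
  have h2 : ((H.subgroupOf A).map A.subtype).FG := by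
    obtain ⟨S, hS⟩ := (Subgroup.fg_iff _).1 h
    exact (Subgroup.fg_iff _).2 ⟨A.subtype '' S, by rw [← MonoidHom.map_closure, hS.1], hS.2.image _⟩
  rwa [Subgroup.subgroupOf_map_subtype, inf_eq_left.2 hH] at h2

/-- Extensions. -/
theorem ext_fg {G G' : Type*} [Group G] [Group G'] (f : G →* G') (H : Subgroup G)
    (h1 : (H ⊓ f.ker).FG) (h2 : (H.map f).FG) : H.FG := by
  classical
  obtain ⟨T, hT⟩ := h2
  have hTH : ∀ t ∈ T, ∃ x ∈ H, f x = t := by
    intro t ht
    have : t ∈ H.map f := by
      rw [← hT]; exact Subgroup.subset_closure ht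
    exact this
  choose! g hgH hgf using hTH
  obtain ⟨S, hS⟩ := h1
  refine ⟨S ∪ T.image g, ?_⟩
  apply le_antisymm
  · rw [Subgroup.closure_le]
    intro x hx
    rcases Finset.mem_union.1 (Finset.mem_coe.1 hx) with h | h
    · have : x ∈ H ⊓ f.ker := by rw [← hS]; exact Subgroup.subset_closure h
      exact this.1
    · obtain ⟨t, ht, rfl⟩ := Finset.mem_image.1 h
      exact hgH t ht
  · intro x hx
    set C := Subgroup.closure ((S ∪ T.image g : Finset G) : Set G) with hC
    have hCH : C ≤ H := by
      rw [hC, Subgroup.closure_le]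
      intro x hx
      rcases Finset.mem_union.1 (Finset.mem_coe.1 hx) with h | h
      · have : x ∈ H ⊓ f.ker := by rw [← hS]; exact Subgroup.subset_closure h
        exact this.1
      · obtain ⟨t, ht, rfl⟩ := Finset.mem_image.1 h
        exact hgH t ht
    have h3 : H.map f ≤ C.map f := by
      rw [← hT, Subgroup.closure_le]
      intro t ht
      refine ⟨g t, ?_, hgf t ht⟩
      apply Subgroup.subset_closure
      simp only [Finset.coe_union, Finset.coe_image]
      exact Or.inr ⟨t, ht, rfl⟩
    obtain ⟨c, hc, hcx⟩ := h3 ⟨x, hx, rfl⟩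
    have h4 : c⁻¹ * x ∈ H ⊓ f.ker := by
      refine ⟨H.mul_mem (H.inv_mem (hCH hc)) hx, ?_⟩
      change c⁻¹ * x ∈ f.ker
      rw [MonoidHom.mem_ker, map_mul, map_inv, hcx, inv_mul_cancel]
    have h5 : H ⊓ f.ker ≤ C := by
      rw [← hS]
      apply Subgroup.closure_mono
      simp
    have := C.mul_mem hc (h5 h4)
    simpa using this

section lcs

variable {G : Type*} [Group G]

abbrev γ (n : ℕ) : Subgroup G := (⊤ : Subgroup G).lowerCentralSeries n

theorem γ_succ (n : ℕ) : (γ (n + 1) : Subgroup G) = ⁅(γ n : Subgroup G), (⊤ : Subgroup G)⁆ := rfl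

/-- generators modulo the next term -/
theorem lcs_gen [Group.FG G] (n : ℕ) : ∃ Y : Set G, Y.Finite ∧
    (γ n : Subgroup G) = Subgroup.closure Y ⊔ γ (n + 1) := by
  obtain ⟨X, hX, hXf⟩ := Group.fg_iff.1 (inferInstance : Group.FG G)
  induction n with
  | zero =>
    refine ⟨X, hXf, ?_⟩
    rw [hX]
    simp [γ, Subgroup.lowerCentralSeries_zero]
  | succ n ih =>
    obtain ⟨Y, hYf, hY⟩ := ih
    refine ⟨(fun p : G × G => ⁅p.1, p.2⁆) '' (Y ×ˢ X), (hYf.prod hXf).image _, ?_⟩
    set K : Subgroup G := Subgroup.closure ((fun p : G × G => ⁅p.1, p.2⁆) '' (Y ×ˢ X)) ⊔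
      γ (n + 1 + 1) with hK
    have hYn : Y ⊆ (γ n : Subgroup G) := by
      rw [hY]; intro y hy; exact Subgroup.mem_sup_left (Subgroup.subset_closure hy)
    have hKle : K ≤ γ (n + 1) := by
      rw [hK, sup_le_iff, Subgroup.closure_le]
      refine ⟨?_, ?_⟩
      · rintro _ ⟨⟨y, x⟩, ⟨hy, hx⟩, rfl⟩
        exact Subgroup.commutator_mem_commutator (hYn hy) (Subgroup.mem_top x)
      · exact Subgroup.lowerCentralSeries_antitone _ (Nat.le_succ _)
    have hcomm : ∀ k ∈ (γ (n + 1) : Subgroup G), ∀ g : G, ⁅k, g⁆ ∈ K := by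
      intro k hk g
      have : ⁅k, g⁆ ∈ (γ (n + 1 + 1) : Subgroup G) :=
        Subgroup.commutator_mem_commutator hk (Subgroup.mem_top g)
      exact Subgroup.mem_sup_right this
    haveI hKn : K.Normal := by
      constructor
      intro k hk g
      have h1 : ⁅k, g⁆ ∈ K := hcomm k (hKle hk) g
      -- g k g⁻¹ = ⁅g,k⁆ k
      have h2 : g * k * g⁻¹ = (⁅k, g⁆)⁻¹ * k := by
        rw [commutatorElement_inv, commutatorElement_def]; group
      rw [h2]
      exact K.mul_mem (K.inv_mem h1) hk
    apply le_antisymm _ hKle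
    -- C = preimage of the center of G/K
    let C : Subgroup G := (Subgroup.center (G ⧸ K)).comap (QuotientGroup.mk' K)
    have hCiff : ∀ y, y ∈ C ↔ ∀ g : G, ⁅y, g⁆ ∈ K := by
      intro y
      rw [Subgroup.mem_comap, Subgroup.mem_center_iff]
      constructor
      · intro h g
        have := h (QuotientGroup.mk' K g)
        rw [← QuotientGroup.eq_one_iff]
        change (QuotientGroup.mk' K) ⁅y, g⁆ = 1
        rw [commutatorElement_def, map_mul, map_mul, map_mul, map_inv, map_inv, ← this]
        group
      · intro h q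
        obtain ⟨g, rfl⟩ := QuotientGroup.mk'_surjective K q
        have h1 := h g
        rw [← QuotientGroup.eq_one_iff] at h1
        change (QuotientGroup.mk' K) ⁅y, g⁆ = 1 at h1
        rw [commutatorElement_def, map_mul, map_mul, map_mul, map_inv, map_inv] at h1
        have h2 : (QuotientGroup.mk' K y) * (QuotientGroup.mk' K g) =
            (QuotientGroup.mk' K g) * (QuotientGroup.mk' K y) := by
          have := mul_inv_eq_one.1 h1
          rw [mul_inv_eq_iff_eq_mul] at this
          exact this
        exact h2.symm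
    have h1 : Y ⊆ (C : Set G) := by
      intro y hy
      rw [SetLike.mem_coe, hCiff]
      -- {g | ⁅y,g⁆ ∈ K} : use centralizer in the quotient
      have : (⊤ : Subgroup G) ≤ (Subgroup.centralizer {QuotientGroup.mk' K y}).comap
          (QuotientGroup.mk' K) := by
        rw [← hX, Subgroup.closure_le]
        intro x hx
        rw [SetLike.mem_coe, Subgroup.mem_comap, Subgroup.mem_centralizer_singleton_iff]
        have h3 : ⁅y, x⁆ ∈ K := by
          apply Subgroup.mem_sup_left
          apply Subgroup.subset_closure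
          exact ⟨(y, x), ⟨hy, hx⟩, rfl⟩
        rw [← QuotientGroup.eq_one_iff] at h3
        change (QuotientGroup.mk' K) ⁅y, x⁆ = 1 at h3
        rw [commutatorElement_def, map_mul, map_mul, map_mul, map_inv, map_inv] at h3
        have := mul_inv_eq_one.1 h3
        rw [mul_inv_eq_iff_eq_mul] at this
        first | exact this | exact this.symm
      intro g
      have h3 := this (Subgroup.mem_top g)
      rw [Subgroup.mem_comap, Subgroup.mem_centralizer_singleton_iff] at h3
      rw [← QuotientGroup.eq_one_iff]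
      change (QuotientGroup.mk' K) ⁅y, g⁆ = 1
      rw [commutatorElement_def, map_mul, map_mul, map_mul, map_inv, map_inv]
      first | rw [h3] | rw [← h3]
      group
    have h2 : (γ n : Subgroup G) ≤ C := by
      rw [hY, sup_le_iff, Subgroup.closure_le]
      exact ⟨h1, fun k hk => (hCiff k).2 (hcomm k hk)⟩
    rw [γ_succ, Subgroup.commutator_le]
    intro g₁ hg₁ g₂ _
    exact (hCiff g₁).1 (h2 hg₁) g₂

theorem sub_fg_of_nilp [Group.FG G] (hn : Group.IsNilpotent G) : ∀ H : Subgroup G, H.FG := by
  obtain ⟨N, hN⟩ := Subgroup.nilpotent_iff_lowerCentralSeries.1 hn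
  have key : ∀ n, ∀ H : Subgroup G, H ≤ γ (N - n) → H.FG := by
    intro n
    induction n with
    | zero =>
      intro H hH
      rw [Nat.sub_zero, γ, hN, le_bot_iff] at hH
      subst hH
      exact Subgroup.FG.bot
    | succ n ih =>
      intro H hH
      by_cases hnN : N ≤ n
      · apply ih
        have : N - n = 0 := by omega
        rw [this]
        simp [γ, Subgroup.lowerCentralSeries_zero]
      · have e : N - n = N - (n + 1) + 1 := by omega
        rw [e] at ih
        set m := N - (n + 1) with hm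
        obtain ⟨Y, hYf, hY⟩ := lcs_gen (G := G) m
        haveI : (γ (m + 1) : Subgroup G).Normal := inferInstance
        set f := QuotientGroup.mk' (γ (m + 1) : Subgroup G) with hf
        have hker : f.ker = γ (m + 1) := QuotientGroup.ker_mk' _
        apply ext_fg f H
        · rw [hker]; exact ih _ inf_le_right
        · have h1 : ((γ m : Subgroup G).map f) = Subgroup.closure (f '' Y) := by
            rw [hY, Subgroup.map_sup, MonoidHom.map_closure]
            have : (γ (m + 1) : Subgroup G).map f = ⊥ := by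
              rw [Subgroup.map_eq_bot_iff, hker]
            rw [this, sup_bot_eq]
          apply comm_sub ((γ m : Subgroup G).map f)
          · rw [h1]
            exact (Subgroup.fg_iff _).2 ⟨f '' Y, rfl, hYf.image _⟩
          · rintro _ ⟨x, hx, rfl⟩ _ ⟨y, hy, rfl⟩
            have h2 : ⁅x, y⁆ ∈ (γ (m + 1) : Subgroup G) :=
              Subgroup.commutator_mem_commutator hx (Subgroup.mem_top y)
            rw [← hker, MonoidHom.mem_ker, commutatorElement_def, map_mul, map_mul, map_mul,
              map_inv, map_inv] at h2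
            have := mul_inv_eq_one.1 h2
            rw [mul_inv_eq_iff_eq_mul] at this
            exact this
          · exact Subgroup.map_mono hH
  intro H
  apply key N
  simp [γ, Subgroup.lowerCentralSeries_zero]

end lcs

theorem comm_Z (A : Type*) [CommGroup A] [Group.FG A] :
    Finite A ∨ ∃ f : A →* Multiplicative ℤ, Function.Surjective f := by
  obtain ⟨ι, j, _, _, p, hp, e, ⟨φ⟩⟩ := CommGroup.equiv_free_prod_prod_multiplicative_zmod A
  haveI : ∀ i, NeZero (p i ^ e i) := fun i => ⟨pow_ne_zero _ (hp i).ne_zero⟩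
  rcases isEmpty_or_nonempty j with h | ⟨⟨j0⟩⟩
  · left
    haveI : Finite ((i : ι) → Multiplicative (ZMod (p i ^ e i))) := by
      haveI : ∀ i, Finite (Multiplicative (ZMod (p i ^ e i))) := fun i =>
        inferInstanceAs (Finite (ZMod (p i ^ e i)))
      infer_instance
    exact Finite.of_equiv _ φ.symm.toEquiv
  · right
    refine ⟨(Pi.evalMonoidHom (fun _ : j => Multiplicative ℤ) j0).comp
      ((MonoidHom.fst _ _).comp φ.toMonoidHom), ?_⟩
    intro z
    refine ⟨φ.symm (fun _ => z, 1), ?_⟩
    simp

theorem nilp_Z (G : Type*) [Group G] (hn : Group.IsNilpotent G) (hf : Group.FG G) :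
    Finite G ∨ ∃ f : G →* Multiplicative ℤ, Function.Surjective f := by
  revert hf
  apply Group.nilpotent_center_quotient_ind (P := fun G _ _ => Group.FG G →
    (Finite G ∨ ∃ f : G →* Multiplicative ℤ, Function.Surjective f)) G
  · intro G _ _ _
    exact Or.inl inferInstance
  · intro G _ _ ih hfg
    rcases ih inferInstance with h | ⟨f, hf⟩
    · haveI : (Subgroup.center G).FiniteIndex := Subgroup.finiteIndex_of_finite_quotient
      have hcs : Finite (commutatorSet G) := by
        set Z := Subgroup.center G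
        have hfin : (Set.range (fun p : (G ⧸ Z) × (G ⧸ Z) => ⁅p.1.out, p.2.out⁆)).Finite :=
          Set.finite_range _
        refine hfin.subset ?_
        rintro _ ⟨x, y, rfl⟩
        refine ⟨((x : G ⧸ Z), (y : G ⧸ Z)), ?_⟩
        obtain ⟨z, hz⟩ := QuotientGroup.mk_out_eq_mul Z x
        obtain ⟨w, hw⟩ := QuotientGroup.mk_out_eq_mul Z y
        have hz' := fun g => Subgroup.mem_center_iff.1 z.2 g
        have hw' := fun g => Subgroup.mem_center_iff.1 w.2 g
        simp only [hz, hw, commutatorElement_def, mul_inv_rev]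
        have e1 : x * z * (y * w) * ((z : G)⁻¹ * x⁻¹) * ((w : G)⁻¹ * y⁻¹) = x * y * x⁻¹ * y⁻¹ := by
          calc x * z * (y * w) * ((z : G)⁻¹ * x⁻¹) * ((w : G)⁻¹ * y⁻¹)
              = x * (z * (y * w)) * (z : G)⁻¹ * x⁻¹ * (w : G)⁻¹ * y⁻¹ := by group
            _ = x * ((y * w) * z) * (z : G)⁻¹ * x⁻¹ * (w : G)⁻¹ * y⁻¹ := by rw [hz' (y * w)]
            _ = x * y * (w * x⁻¹) * (w : G)⁻¹ * y⁻¹ := by group
            _ = x * y * (x⁻¹ * w) * (w : G)⁻¹ * y⁻¹ := by rw [hw' x⁻¹]
            _ = x * y * x⁻¹ * y⁻¹ := by group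
        exact e1
      have hcf : Finite (_root_.commutator G) := inferInstance
      haveI : Group.FG (Abelianization G) :=
        Group.fg_of_surjective (f := Abelianization.of) (QuotientGroup.mk_surjective)
      rcases comm_Z (Abelianization G) with h2 | ⟨f, hf⟩
      · left
        haveI : Finite (G ⧸ _root_.commutator G) := h2
        exact Finite.of_equiv _ (Subgroup.groupEquivQuotientProdSubgroup
          (s := _root_.commutator G)).symm
      · exact Or.inr ⟨f.comp Abelianization.of, hf.comp (QuotientGroup.mk_surjective)⟩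
    · exact Or.inr ⟨f.comp (QuotientGroup.mk' _), hf.comp (QuotientGroup.mk'_surjective _)⟩

open Pool.Agent.Helper39.Uct in
/-- NP: finitely generated nilpotent groups are in `PZ`. -/
theorem t_NP : S_NP := by
  intro Q _ hn hf
  refine ⟨⟨sub_fg_of_nilp hn, ⊤, inferInstance, ?_⟩, ?_⟩
  · haveI := hn
    infer_instance
  · intro M K _
    haveI := hn
    haveI : Group.FG M := (Group.fg_iff_subgroup_fg M).2 (sub_fg_of_nilp hn M)
    exact nilp_Z (M ⧸ K) inferInstance inferInstance

end Pool.Agent.Helper51.Uct2
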